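import Pool.Agent.Y463.MP.Defs

/-!
# Windows of infinite random braid words
-/

set_option autoImplicit false

namespace Pool.Agent.Q262.BP

open MeasureTheory ProbabilityTheory Pool.Agent.H891R2.Jones Pool.Agent.W639.RB Pool.Agent.Y463.MP
open LaurentPolynomial Filter

/-- the `L` letters of the infinite word `x` with the numbers `i, i + 1, …, i + L - 1` -/
def win {m : ℕ} (x : ℕ → Letter m) (i L : ℕ) : Fin L → Letter m := fun t => x (i + t)

variable {m : ℕ} {Ω : Type} [MeasurableSpace Ω] {P : Measure Ω}

/-- prefix and next window of i.i.d. letters -/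
theorem cyl (p : Letter m → ℝ) (hp : ∀ x, 0 ≤ p x) (X : ℕ → Ω → Letter m)
    (hi : iIndepFun X P)
    (hl : ∀ k x, P {ω | X k ω = x} = ENNReal.ofReal (p x)) (a L : ℕ)
    (u : Fin a → Letter m) (v : Fin L → Letter m) :
    P {ω | win (fun k => X k ω) 0 a = u ∧ win (fun k => X k ω) a L = v} =
      ENNReal.ofReal ((∏ t, p (u t)) * ∏ t, p (v t)) := by
  classical
  have h1 := hi.measure_inter_preimage_eq_mul (Finset.range (a + L))
    (sets := fun k => {x | (∀ h : k < a, x = u ⟨k, h⟩) ∧ ∀ h : a ≤ k ∧ k - a < L, x = v ⟨k - a, h.2⟩})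
    (fun k _ => MeasurableSet.of_discrete)
  have hset : {ω | win (fun k => X k ω) 0 a = u ∧ win (fun k => X k ω) a L = v} =
      ⋂ k ∈ Finset.range (a + L), X k ⁻¹'
        {x | (∀ h : k < a, x = u ⟨k, h⟩) ∧ ∀ h : a ≤ k ∧ k - a < L, x = v ⟨k - a, h.2⟩} := by
    ext ω
    simp only [Set.mem_ofPred_eq, Set.mem_iInter, Set.mem_preimage, Finset.mem_range]
    constructor
    · rintro ⟨h2, h3⟩ k hk
      constructor
      · intro h
        rw [← h2]
        simp [win]
      · intro h
        rw [← h3]
        simp only [win]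
        congr 1
        omega
    · intro h
      constructor
      · funext t
        have := (h t (by omega)).1 t.2
        simpa [win] using this
      · funext t
        have := (h (a + t) (by omega)).2 ⟨by omega, by omega⟩
        simp only [win]
        rw [this]
        congr 1
        ext
        simp
  rw [hset, h1, Finset.prod_range_add]
  rw [ENNReal.ofReal_mul (Finset.prod_nonneg fun _ _ => hp _),
    ENNReal.ofReal_prod_of_nonneg (fun _ _ => hp _), ENNReal.ofReal_prod_of_nonneg (fun _ _ => hp _),
    Finset.prod_range, Finset.prod_range]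
  congr 1
  · refine Finset.prod_congr rfl fun t _ => ?_
    rw [← hl t (u t)]
    congr 1
    ext ω
    simp only [Set.mem_preimage, Set.mem_ofPred_eq]
    constructor
    · rintro ⟨h2, -⟩
      exact h2 t.2
    · intro h2
      exact ⟨fun _ => h2, fun h => absurd h.1 (by omega)⟩
  · refine Finset.prod_congr rfl fun t _ => ?_
    rw [← hl (a + t) (v t)]
    congr 1
    ext ω
    simp only [Set.mem_preimage, Set.mem_ofPred_eq]
    constructor
    · rintro ⟨-, h2⟩
      rw [h2 ⟨by omega, by omega⟩]
      congr 1
      ext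
      simp
    · intro h2
      refine ⟨fun h => absurd h (by omega), fun h => ?_⟩
      rw [h2]
      congr 1
      ext
      simp

/-- conditioning on the letters before a window -/
theorem cond (p : Letter m → ℝ) (hp : ∀ x, 0 ≤ p x) (hs : ∑ x, p x = 1) (X : ℕ → Ω → Letter m)
    (hi : iIndepFun X P)
    (hl : ∀ k x, P {ω | X k ω = x} = ENNReal.ofReal (p x)) (a L : ℕ)
    (G : (Fin a → Letter m) → (Fin L → Letter m) → Prop) (B : ℝ)
    (hB : ∀ u, Pr p L (G u) ≤ B) :
    P {ω | G (win (fun k => X k ω) 0 a) (win (fun k => X k ω) a L)} ≤ ENNReal.ofReal B := by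
  classical
  have hsub : {ω | G (win (fun k => X k ω) 0 a) (win (fun k => X k ω) a L)} ⊆
      ⋃ u ∈ (Finset.univ : Finset (Fin a → Letter m)),
        ⋃ v ∈ Finset.univ.filter (fun v : Fin L → Letter m => G u v),
          {ω | win (fun k => X k ω) 0 a = u ∧ win (fun k => X k ω) a L = v} := by
    intro ω hω
    simp only [Set.mem_iUnion, Finset.mem_filter, Finset.mem_univ, true_and, Set.mem_ofPred_eq,
      exists_prop]
    exact ⟨_, _, hω, rfl, rfl⟩
  calc P {ω | G (win (fun k => X k ω) 0 a) (win (fun k => X k ω) a L)}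
      ≤ ∑ u : Fin a → Letter m, ∑ v ∈ Finset.univ.filter (fun v : Fin L → Letter m => G u v),
          P {ω | win (fun k => X k ω) 0 a = u ∧ win (fun k => X k ω) a L = v} := by
        refine (measure_mono hsub).trans ((measure_biUnion_finset_le _ _).trans ?_)
        exact Finset.sum_le_sum fun u _ => measure_biUnion_finset_le _ _
    _ = ∑ u : Fin a → Letter m, ENNReal.ofReal ((∏ t, p (u t)) * Pr p L (G u)) := by
        refine Finset.sum_congr rfl fun u _ => ?_
        rw [Pr, ← Finset.sum_filter, Finset.mul_sum, ENNReal.ofReal_sum_of_nonneg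
          (fun v _ => mul_nonneg (Finset.prod_nonneg fun _ _ => hp _)
            (Finset.prod_nonneg fun _ _ => hp _))]
        exact Finset.sum_congr rfl fun v _ => cyl p hp X hi hl a L u v
    _ ≤ ∑ u : Fin a → Letter m, ENNReal.ofReal ((∏ t, p (u t)) * B) := by
        refine Finset.sum_le_sum fun u _ => ENNReal.ofReal_le_ofReal ?_
        exact mul_le_mul_of_nonneg_left (hB u) (Finset.prod_nonneg fun _ _ => hp _)
    _ = ENNReal.ofReal B := by
        have hB0 : 0 ≤ B ∨ IsEmpty (Fin a → Letter m) := by
          by_cases h : IsEmpty (Fin a → Letter m)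
          · exact Or.inr h
          · rw [not_isEmpty_iff] at h
            obtain ⟨u⟩ := h
            refine Or.inl (le_trans ?_ (hB u))
            unfold Pr
            refine Finset.sum_nonneg fun w _ => ?_
            split_ifs
            · exact Finset.prod_nonneg fun _ _ => hp _
            · exact le_rfl
        have hne : ∑ u : Fin a → Letter m, ∏ t, p (u t) = 1 := by
          rw [← Fintype.prod_sum]
          simp [hs]
        rcases hB0 with hB0 | hE
        · rw [← ENNReal.ofReal_sum_of_nonneg
            (fun u _ => mul_nonneg (Finset.prod_nonneg fun _ _ => hp _) hB0), ← Finset.sum_mul, hne,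
            one_mul]
        · exfalso
          rw [Finset.univ_eq_empty, Finset.sum_empty] at hne
          exact zero_ne_one hne

/-- Borel–Cantelli with polynomially many events of probability `≤ C r ^ (K log n)` -/
theorem bc (d a : ℕ) (C r : ℝ) (hr : 0 < r) (hr1 : r < 1) (E : ℕ → (Fin d → ℕ) → Set Ω)
    (hE : ∀ n τ, P (E n τ) ≤
      ENNReal.ofReal (C * r ^ ((a * d + 2) / (-Real.log r) * Real.log (n + 1)))) :
    ∀ᵐ ω ∂P, ∀ᶠ n : ℕ in atTop, ∀ τ : Fin d → ℕ, (∀ k, τ k < (n + 1) ^ a) → ω ∉ E n τ := by
  classical
  set c : ℝ := -Real.log r with hc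
  have hc0 : 0 < c := by
    rw [hc]
    have := Real.log_neg hr hr1
    linarith
  set s : ℕ → Set Ω := fun n => ⋃ τ ∈ Fintype.piFinset (fun _ : Fin d => Finset.range ((n + 1) ^ a)),
    E n τ with hs
  have hsum : (∑' n, P (s n)) ≠ ⊤ := by
    have h1 : ∀ n : ℕ, P (s n) ≤ ENNReal.ofReal (|C| * (1 / (n + 1 : ℝ) ^ 2)) := by
      intro n
      have h2 : ∀ τ, P (E n τ) ≤ ENNReal.ofReal (|C| * r ^ ((a * d + 2) / c * Real.log (n + 1))) := by
        intro τ
        refine (hE n τ).trans (ENNReal.ofReal_le_ofReal ?_)
        exact mul_le_mul_of_nonneg_right (le_abs_self C) (Real.rpow_nonneg hr.le _)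
      calc P (s n) ≤ ∑ τ ∈ Fintype.piFinset (fun _ : Fin d => Finset.range ((n + 1) ^ a)), P (E n τ) :=
            measure_biUnion_finset_le _ _
        _ ≤ ∑ τ ∈ Fintype.piFinset (fun _ : Fin d => Finset.range ((n + 1) ^ a)),
              ENNReal.ofReal (|C| * r ^ ((a * d + 2) / c * Real.log (n + 1))) :=
            Finset.sum_le_sum fun τ _ => h2 τ
        _ = ENNReal.ofReal ((((n + 1) ^ a) ^ d : ℕ) *
              (|C| * r ^ ((a * d + 2) / c * Real.log (n + 1)))) := by
            rw [Finset.sum_const, Fintype.card_piFinset]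
            simp only [Finset.card_range, Finset.prod_const, Finset.card_univ, Fintype.card_fin,
              nsmul_eq_mul]
            rw [ENNReal.ofReal_mul (p := ((((n + 1) ^ a) ^ d : ℕ) : ℝ)) (by positivity),
              ENNReal.ofReal_natCast]
        _ = ENNReal.ofReal (|C| * (1 / (n + 1 : ℝ) ^ 2)) := by
            congr 1
            have hn : (0 : ℝ) < n + 1 := by positivity
            have h3 : r ^ ((a * d + 2) / c * Real.log (n + 1)) =
                (1 : ℝ) / ((n + 1 : ℝ) ^ (a * d + 2)) := by
              rw [Real.rpow_def_of_pos hr]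
              have : Real.log r * ((a * d + 2) / c * Real.log (n + 1)) =
                  Real.log (n + 1) * (-((a * d + 2 : ℕ) : ℝ)) := by
                have h4 : Real.log r = -c := by rw [hc]; ring
                rw [h4]
                push_cast
                field_simp
              rw [this, ← Real.rpow_def_of_pos hn, Real.rpow_neg hn.le, Real.rpow_natCast, one_div]
            rw [h3]
            push_cast
            rw [pow_add, pow_mul]
            field_simp
    refine ne_top_of_le_ne_top ?_ (ENNReal.tsum_le_tsum h1)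
    have h5 : Summable (fun n : ℕ => |C| * (1 / (n + 1 : ℝ) ^ 2)) := by
      refine Summable.mul_left _ ?_
      have := (summable_nat_add_iff 1).2 (Real.summable_one_div_nat_pow.2 (by norm_num : 1 < 2))
      simpa using this
    rw [← ENNReal.ofReal_tsum_of_nonneg (fun n => by positivity) h5]
    exact ENNReal.ofReal_ne_top
  filter_upwards [ae_eventually_notMem hsum] with ω hω
  filter_upwards [hω] with n hn τ hτ hmem
  apply hn
  rw [hs]
  simp only [Set.mem_iUnion, Fintype.mem_piFinset, Finset.mem_range, exists_prop]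
  exact ⟨τ, hτ, hmem⟩

end Pool.Agent.Q262.BP
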