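import Pool.Agent.Q262.BP.Base
import Pool.Agent.Results.MP_42db45_gt.RandomBraidsModN

/-!
# Jones polynomials along infinite random braid words
-/

set_option autoImplicit false

namespace Pool.Agent.Q262.BP

open MeasureTheory ProbabilityTheory Pool.Agent.H891R2.Jones Pool.Agent.W639.RB Pool.Agent.Y463.MP
open LaurentPolynomial Filter

/-- the normalised bracket of the diagram obtained by drawing the letters number `i, …, j - 1` of the
infinite word `x` in the box of `O` -/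
noncomputable def J {m : ℕ} (O : Outer m) (x : ℕ → Letter m) (i j : ℕ) : ℤ[T;T⁻¹] :=
  (diagram O (win x i (j - i))).fPoly

theorem toL_split {m : ℕ} (x : ℕ → Letter m) (i a j : ℕ) (h1 : i ≤ a) (h2 : a ≤ j) :
    toL (win x i (j - i)) = toL (win x i (a - i)) ++ toL (win x a (j - a)) := by
  apply List.ext_getElem
  · simp only [toL, List.length_ofFn, List.length_append]
    omega
  · intro k h3 h4
    simp only [toL, List.length_ofFn, List.length_append] at h3 h4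
    rw [List.getElem_append]
    simp only [toL, List.getElem_ofFn, win, List.length_ofFn]
    split_ifs with h
    · rfl
    · have : i + k = a + (k - (a - i)) := by omega
      rw [this]

theorem draw_append {m : ℕ} (O : Outer m) (l l' : List (Bool × ℕ)) :
    draw O (l ++ l') = draw (draw O l) l' := by
  unfold draw
  rw [List.foldl_append]

theorem J_split {m : ℕ} (O : Outer m) (x : ℕ → Letter m) (i a j : ℕ) (h1 : i ≤ a) (h2 : a ≤ j) :
    J O x i j = (diagram (draw O (toL (win x i (a - i)))) (win x a (j - a))).fPoly := by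
  unfold J diagram
  rw [toL_split x i a j h1 h2, draw_append]

/-- a finite word continued to an infinite one -/
def ew {m a : ℕ} (x0 : Letter m) (u : Fin a → Letter m) (k : ℕ) : Letter m :=
  if h : k < a then u ⟨k, h⟩ else x0

theorem win_ew {m a : ℕ} (x0 : Letter m) (x : ℕ → Letter m) (i L : ℕ) (h : i + L ≤ a) :
    win (ew x0 (win x 0 a)) i L = win x i L := by
  funext t
  simp only [win, ew]
  rw [dif_pos (by omega)]
  simp

theorem J_ew {m a : ℕ} (x0 : Letter m) (O : Outer m) (x : ℕ → Letter m) (i j : ℕ) (h0 : i ≤ j)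
    (h : j ≤ a) : J O (ew x0 (win x 0 a)) i j = J O x i j := by
  unfold J
  rw [win_ew x0 x i (j - i) (by omega)]

variable {m : ℕ} {Ω : Type} [MeasurableSpace Ω] {P : Measure Ω}

theorem pw (C r : ℝ) (hr : 0 < r) (hr1 : r < 1) (z : ℝ) (L : ℕ) (h : z ≤ L) :
    C * r ^ L ≤ |C| * r ^ z := by
  refine (mul_le_mul_of_nonneg_right (le_abs_self C) (by positivity)).trans ?_
  refine mul_le_mul_of_nonneg_left ?_ (abs_nonneg C)
  rw [← Real.rpow_natCast]
  exact Real.rpow_le_rpow_of_exponent_ge hr hr1.le h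

/-- the constant in front of the logarithm -/
noncomputable def KK (A : ℕ) (r : ℝ) : ℝ := ((A + 1 : ℕ) * (7 : ℕ) + 2) / (-Real.log r)

theorem KK_pos (A : ℕ) (r : ℝ) (hr : 0 < r) (hr1 : r < 1) : 0 < KK A r := by
  have := Real.log_neg hr hr1
  unfold KK
  apply div_pos
  · positivity
  · linarith

/-- windows do not have prescribed polynomials -/
theorem part1 (p : Letter m → ℝ) (hp : ∀ x, 0 ≤ p x) (hs : ∑ x, p x = 1) (X : ℕ → Ω → Letter m)
    (hi : iIndepFun X P) (hl : ∀ k x, P {ω | X k ω = x} = ENNReal.ofReal (p x))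
    (C r : ℝ) (hr : 0 < r) (hr1 : r < 1)
    (hC : ∀ N : ℕ, 2 ≤ N → ∀ (O : Outer m) (g : ℤ[T;T⁻¹]) (n : ℕ),
      Pr p n (fun w => (N : ℤ[T;T⁻¹]) ∣ (diagram O w).fPoly - g) ≤ C * r ^ n)
    (A : ℕ) (O : ℕ → Outer m) (g : ℕ → ℤ[T;T⁻¹]) :
    ∀ᵐ ω ∂P, ∀ᶠ n : ℕ in atTop, ∀ i j s t N : ℕ, j ≤ n → i + KK A r * Real.log (n + 1) ≤ j →
      s < (n + 1) ^ A → t < (n + 1) ^ A → N < (n + 1) ^ A → 2 ≤ N →
      ¬ (N : ℤ[T;T⁻¹]) ∣ J (O s) (fun k => X k ω) i j - g t := by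
  classical
  set E : ℕ → (Fin 7 → ℕ) → Set Ω := fun n τ =>
    {ω | (((τ 0 : ℕ) : ℝ) + KK A r * Real.log (n + 1) ≤ τ 1 ∧ 2 ≤ τ 4) ∧
      ((τ 4 : ℕ) : ℤ[T;T⁻¹]) ∣ J (O (τ 2)) (fun k => X k ω) (τ 0) (τ 1) - g (τ 3)} with hE
  have h := bc (P := P) 7 (A + 1) |C| r hr hr1 E ?_
  · filter_upwards [h] with ω hω
    filter_upwards [hω] with n hn i j s t N hj hij hs ht hN hN2
    intro hdvd
    have hlog : 0 ≤ Real.log ((n : ℝ) + 1) := Real.log_nonneg (by
      have : (0 : ℝ) ≤ n := Nat.cast_nonneg n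
      linarith)
    have hK := KK_pos A r hr hr1
    have hle : i ≤ j := by
      have : (i : ℝ) ≤ j := by nlinarith
      exact_mod_cast this
    have hA : (n + 1) ^ A ≤ (n + 1) ^ (A + 1) := Nat.pow_le_pow_right (by omega) (by omega)
    have hA' : n + 1 ≤ (n + 1) ^ (A + 1) := by
      calc n + 1 = (n + 1) ^ 1 := (pow_one _).symm
        _ ≤ (n + 1) ^ (A + 1) := Nat.pow_le_pow_right (by omega) (by omega)
    apply hn ![i, j, s, t, N, 0, 0]
    · intro k
      fin_cases k <;> simp <;> omega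
    · exact ⟨⟨hij, hN2⟩, hdvd⟩
  · intro n τ
    rw [hE]
    dsimp only
    by_cases h : ((τ 0 : ℕ) : ℝ) + KK A r * Real.log (n + 1) ≤ τ 1 ∧ 2 ≤ τ 4
    · simp only [h, true_and]
      have h1 := cond p hp hs X hi hl (τ 0) (τ 1 - τ 0)
        (fun _ v => ((τ 4 : ℕ) : ℤ[T;T⁻¹]) ∣ (diagram (O (τ 2)) v).fPoly - g (τ 3))
        (C * r ^ (τ 1 - τ 0)) (fun _ => hC _ h.2 _ _ _)
      refine h1.trans (ENNReal.ofReal_le_ofReal ?_)
      apply pw C r hr hr1
      have hK := KK_pos A r hr hr1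
      have hlog : 0 ≤ Real.log ((n : ℝ) + 1) := Real.log_nonneg (by
        have : (0 : ℝ) ≤ n := Nat.cast_nonneg n
        linarith)
      have hle : τ 0 ≤ τ 1 := by
        have : ((τ 0 : ℕ) : ℝ) ≤ τ 1 := by nlinarith [h.1]
        exact_mod_cast this
      rw [Nat.cast_sub hle]
      have := h.1
      unfold KK at this
      linarith
    · simp [h]

/-- windows with different ends do not have equal polynomials -/
theorem part2 (x0 : Letter m) (p : Letter m → ℝ) (hp : ∀ x, 0 ≤ p x) (hs : ∑ x, p x = 1)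
    (X : ℕ → Ω → Letter m)
    (hi : iIndepFun X P) (hl : ∀ k x, P {ω | X k ω = x} = ENNReal.ofReal (p x))
    (C r : ℝ) (hr : 0 < r) (hr1 : r < 1)
    (hC : ∀ N : ℕ, 2 ≤ N → ∀ (O : Outer m) (g : ℤ[T;T⁻¹]) (n : ℕ),
      Pr p n (fun w => (N : ℤ[T;T⁻¹]) ∣ (diagram O w).fPoly - g) ≤ C * r ^ n)
    (A : ℕ) (O : ℕ → Outer m) :
    ∀ᵐ ω ∂P, ∀ᶠ n : ℕ in atTop, ∀ i j i' j' s t N : ℕ, i ≤ j → j' ≤ n →
      j + KK A r * Real.log (n + 1) ≤ j' → i' + KK A r * Real.log (n + 1) ≤ j' →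
      s < (n + 1) ^ A → t < (n + 1) ^ A → N < (n + 1) ^ A → 2 ≤ N →
      ¬ (N : ℤ[T;T⁻¹]) ∣ J (O s) (fun k => X k ω) i j - J (O t) (fun k => X k ω) i' j' := by
  classical
  set E : ℕ → (Fin 7 → ℕ) → Set Ω := fun n τ =>
    {ω | (τ 0 ≤ τ 1 ∧ ((τ 1 : ℕ) : ℝ) + KK A r * Real.log (n + 1) ≤ τ 3 ∧
        ((τ 2 : ℕ) : ℝ) + KK A r * Real.log (n + 1) ≤ τ 3 ∧ 2 ≤ τ 6) ∧
      ((τ 6 : ℕ) : ℤ[T;T⁻¹]) ∣ J (O (τ 4)) (fun k => X k ω) (τ 0) (τ 1) -
        J (O (τ 5)) (fun k => X k ω) (τ 2) (τ 3)} with hE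
  have h := bc (P := P) 7 (A + 1) |C| r hr hr1 E ?_
  · filter_upwards [h] with ω hω
    filter_upwards [hω] with n hn i j i' j' s t N hij hj' h1 h2 hs ht hN hN2
    intro hdvd
    have hlog : 0 ≤ Real.log ((n : ℝ) + 1) := Real.log_nonneg (by
      have : (0 : ℝ) ≤ n := Nat.cast_nonneg n
      linarith)
    have hK := KK_pos A r hr hr1
    have hle : j ≤ j' := by
      have : (j : ℝ) ≤ j' := by nlinarith
      exact_mod_cast this
    have hle' : i' ≤ j' := by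
      have : (i' : ℝ) ≤ j' := by nlinarith
      exact_mod_cast this
    have hA : (n + 1) ^ A ≤ (n + 1) ^ (A + 1) := Nat.pow_le_pow_right (by omega) (by omega)
    have hA' : n + 1 ≤ (n + 1) ^ (A + 1) := by
      calc n + 1 = (n + 1) ^ 1 := (pow_one _).symm
        _ ≤ (n + 1) ^ (A + 1) := Nat.pow_le_pow_right (by omega) (by omega)
    apply hn ![i, j, i', j', s, t, N]
    · intro k
      fin_cases k <;> simp <;> omega
    · exact ⟨⟨hij, h1, h2, hN2⟩, hdvd⟩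
  · intro n τ
    rw [hE]
    dsimp only
    by_cases h : τ 0 ≤ τ 1 ∧ ((τ 1 : ℕ) : ℝ) + KK A r * Real.log (n + 1) ≤ τ 3 ∧
        ((τ 2 : ℕ) : ℝ) + KK A r * Real.log (n + 1) ≤ τ 3 ∧ 2 ≤ τ 6
    · simp only [h, true_and]
      obtain ⟨h0, h1, h2, h3⟩ := h
      have hK := KK_pos A r hr hr1
      have hlog : 0 ≤ Real.log ((n : ℝ) + 1) := Real.log_nonneg (by
        have : (0 : ℝ) ≤ n := Nat.cast_nonneg n
        linarith)
      have hle : τ 1 ≤ τ 3 := by
        have : ((τ 1 : ℕ) : ℝ) ≤ τ 3 := by nlinarith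
        exact_mod_cast this
      have hle' : τ 2 ≤ τ 3 := by
        have : ((τ 2 : ℕ) : ℝ) ≤ τ 3 := by nlinarith
        exact_mod_cast this
      set a := max (τ 1) (τ 2) with ha
      have ha1 : τ 1 ≤ a := le_max_left _ _
      have ha2 : τ 2 ≤ a := le_max_right _ _
      have ha3 : a ≤ τ 3 := max_le hle hle'
      have h4 := cond p hp hs X hi hl a (τ 3 - a)
        (fun u v => ((τ 6 : ℕ) : ℤ[T;T⁻¹]) ∣ J (O (τ 4)) (ew x0 u) (τ 0) (τ 1) -
          (diagram (draw (O (τ 5)) (toL (win (ew x0 u) (τ 2) (a - τ 2)))) v).fPoly)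
        (C * r ^ (τ 3 - a)) (fun u => by
          have h5 := hC _ h3 (draw (O (τ 5)) (toL (win (ew x0 u) (τ 2) (a - τ 2))))
            (J (O (τ 4)) (ew x0 u) (τ 0) (τ 1)) (τ 3 - a)
          have h6 : (fun v : Fin (τ 3 - a) → Letter m =>
              ((τ 6 : ℕ) : ℤ[T;T⁻¹]) ∣ J (O (τ 4)) (ew x0 u) (τ 0) (τ 1) -
                (diagram (draw (O (τ 5)) (toL (win (ew x0 u) (τ 2) (a - τ 2)))) v).fPoly) =
              (fun v => ((τ 6 : ℕ) : ℤ[T;T⁻¹]) ∣
                (diagram (draw (O (τ 5)) (toL (win (ew x0 u) (τ 2) (a - τ 2)))) v).fPoly -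
                  J (O (τ 4)) (ew x0 u) (τ 0) (τ 1)) := by
            funext v
            rw [dvd_sub_comm]
          rw [h6]
          exact h5)
      have hset : {ω | ((τ 6 : ℕ) : ℤ[T;T⁻¹]) ∣ J (O (τ 4)) (fun k => X k ω) (τ 0) (τ 1) -
          J (O (τ 5)) (fun k => X k ω) (τ 2) (τ 3)} =
          {ω | (fun (u : Fin a → Letter m) (v : Fin (τ 3 - a) → Letter m) =>
            ((τ 6 : ℕ) : ℤ[T;T⁻¹]) ∣ J (O (τ 4)) (ew x0 u) (τ 0) (τ 1) -
              (diagram (draw (O (τ 5)) (toL (win (ew x0 u) (τ 2) (a - τ 2)))) v).fPoly)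
            (win (fun k => X k ω) 0 a) (win (fun k => X k ω) a (τ 3 - a))} := by
        ext ω
        simp only [Set.mem_ofPred_eq]
        rw [J_ew x0 _ _ _ _ h0 ha1, win_ew x0 _ _ _ (by omega),
          J_split (O (τ 5)) (fun k => X k ω) (τ 2) a (τ 3) ha2 ha3]
      rw [hset]
      refine h4.trans (ENNReal.ofReal_le_ofReal ?_)
      apply pw C r hr hr1
      rw [Nat.cast_sub ha3, ha, Nat.cast_max]
      have h7 : max ((τ 1 : ℕ) : ℝ) (τ 2) + KK A r * Real.log (n + 1) ≤ τ 3 := by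
        rcases max_cases ((τ 1 : ℕ) : ℝ) (τ 2) with ⟨h8, _⟩ | ⟨h8, _⟩ <;> rw [h8] <;> assumption
      unfold KK at h7
      linarith
    · simp [h]

/-- all windows have a property which fails with exponentially small probability -/
theorem part3 (p : Letter m → ℝ) (hp : ∀ x, 0 ≤ p x) (hs : ∑ x, p x = 1) (X : ℕ → Ω → Letter m)
    (hi : iIndepFun X P) (hl : ∀ k x, P {ω | X k ω = x} = ENNReal.ofReal (p x))
    (C r : ℝ) (hr : 0 < r) (hr1 : r < 1) (κ : ℝ)
    (F : Outer m → (n : ℕ) → (Fin n → Letter m) → Prop)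
    (hC : ∀ (O : Outer m) (n : ℕ), (osize O : ℝ) ≤ κ * (n + 1) → Pr p n (F O n) ≤ C * r ^ n)
    (A : ℕ) (O : ℕ → Outer m) :
    ∀ᵐ ω ∂P, ∀ᶠ n : ℕ in atTop, ∀ i j s : ℕ, j ≤ n → i + KK A r * Real.log (n + 1) ≤ j →
      s < (n + 1) ^ A → (osize (O s) : ℝ) ≤ κ * ((j - i : ℕ) + 1) →
      ¬ F (O s) (j - i) (win (fun k => X k ω) i (j - i)) := by
  classical
  set E : ℕ → (Fin 7 → ℕ) → Set Ω := fun n τ =>
    {ω | (((τ 0 : ℕ) : ℝ) + KK A r * Real.log (n + 1) ≤ τ 1 ∧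
        (osize (O (τ 2)) : ℝ) ≤ κ * ((τ 1 - τ 0 : ℕ) + 1)) ∧
      F (O (τ 2)) (τ 1 - τ 0) (win (fun k => X k ω) (τ 0) (τ 1 - τ 0))} with hE
  have h := bc (P := P) 7 (A + 1) |C| r hr hr1 E ?_
  · filter_upwards [h] with ω hω
    filter_upwards [hω] with n hn i j s hj hij hs hO
    intro hF
    have hlog : 0 ≤ Real.log ((n : ℝ) + 1) := Real.log_nonneg (by
      have : (0 : ℝ) ≤ n := Nat.cast_nonneg n
      linarith)
    have hK := KK_pos A r hr hr1
    have hle : i ≤ j := by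
      have : (i : ℝ) ≤ j := by nlinarith
      exact_mod_cast this
    have hA : (n + 1) ^ A ≤ (n + 1) ^ (A + 1) := Nat.pow_le_pow_right (by omega) (by omega)
    have hA' : n + 1 ≤ (n + 1) ^ (A + 1) := by
      calc n + 1 = (n + 1) ^ 1 := (pow_one _).symm
        _ ≤ (n + 1) ^ (A + 1) := Nat.pow_le_pow_right (by omega) (by omega)
    apply hn ![i, j, s, 0, 0, 0, 0]
    · intro k
      fin_cases k <;> simp <;> omega
    · exact ⟨⟨hij, hO⟩, hF⟩
  · intro n τ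
    rw [hE]
    dsimp only
    by_cases h : ((τ 0 : ℕ) : ℝ) + KK A r * Real.log (n + 1) ≤ τ 1 ∧
        (osize (O (τ 2)) : ℝ) ≤ κ * ((τ 1 - τ 0 : ℕ) + 1)
    · simp only [h, true_and]
      have h1 := cond p hp hs X hi hl (τ 0) (τ 1 - τ 0)
        (fun _ v => F (O (τ 2)) (τ 1 - τ 0) v)
        (C * r ^ (τ 1 - τ 0)) (fun _ => hC _ _ h.2)
      refine h1.trans (ENNReal.ofReal_le_ofReal ?_)
      apply pw C r hr hr1
      have hK := KK_pos A r hr hr1
      have hlog : 0 ≤ Real.log ((n : ℝ) + 1) := Real.log_nonneg (by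
        have : (0 : ℝ) ≤ n := Nat.cast_nonneg n
        linarith)
      have hle : τ 0 ≤ τ 1 := by
        have : ((τ 0 : ℕ) : ℝ) ≤ τ 1 := by nlinarith [h.1]
        exact_mod_cast this
      rw [Nat.cast_sub hle]
      have := h.1
      unfold KK at this
      linarith
    · simp [h]

end Pool.Agent.Q262.BP
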