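import Pool.Agent.Q262.BP.Base
import Pool.Agent.Results.MP_7bc610_gt.VirtualCrossingChanges

/-!
# Infinite sequences of twist regions with random exponents, in diagrams on surfaces
-/

set_option autoImplicit false

namespace Pool.Agent.Q262.BP

open MeasureTheory ProbabilityTheory Pool.Agent.H891R2.Jones Pool.Agent.W639.RB Pool.Agent.Y463.MP
open Pool.Agent.Y463.SK Pool.Agent.Y463.UT Pool.Agent.Y463.VT Pool.Agent.W705.JV
open LaurentPolynomial Filter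

/-- the `L` members of the sequence `x` with the numbers `a, a + 1, …, a + L - 1` -/
def wd {α : Type} (x : ℕ → α) (a L : ℕ) : Fin L → α := fun t => x (a + t)

/-- `X 0, X 1, …` are independent random integers and `X k` has the distribution `μ k` -/
def HasLaws {Ω : Type} [MeasurableSpace Ω] (P : Measure Ω) (μ : ℕ → Law) (X : ℕ → Ω → ℤ) : Prop :=
  iIndepFun X P ∧ ∀ k, (∀ᵐ ω ∂P, X k ω ∈ (μ k).A) ∧
    ∀ n ∈ (μ k).A, P {ω | X k ω = n} = ENNReal.ofReal ((μ k).p n)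

/-- the normalised bracket of the diagram which is obtained by drawing the virtual braid word
`v_a σ_{i_a}^{x_a} ⋯ v_{b-1} σ_{i_{b-1}}^{x_{b-1}}` in the box of `O` -/
noncomputable def JV {m : ℕ} (O : Outer m) (v : ℕ → List (Fin (m - 1))) (i : ℕ → Fin (m - 1))
    (x : ℕ → ℤ) (a b : ℕ) : ℤ[T;T⁻¹] :=
  (diaV O (twG (wd v a (b - a)) (wd i a (b - a)) (wd x a (b - a)))).fPoly

variable {m : ℕ} {Ω : Type} [MeasurableSpace Ω] {P : Measure Ω}

theorem cylZ (μ : ℕ → Law) (X : ℕ → Ω → ℤ) (hX : HasLaws P μ X) (a L : ℕ)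
    (u : Fin a → ℤ) (v : Fin L → ℤ) (hu : ∀ t : Fin a, u t ∈ (μ t).A) (hv : ∀ t : Fin L, v t ∈ (μ (a + t)).A) :
    P {ω | wd (fun k => X k ω) 0 a = u ∧ wd (fun k => X k ω) a L = v} =
      ENNReal.ofReal ((∏ t : Fin a, (μ t).p (u t)) * ∏ t : Fin L, (μ (a + t)).p (v t)) := by
  classical
  have h1 := hX.1.measure_inter_preimage_eq_mul (Finset.range (a + L))
    (sets := fun k => {x | (∀ h : k < a, x = u ⟨k, h⟩) ∧ ∀ h : a ≤ k ∧ k - a < L, x = v ⟨k - a, h.2⟩})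
    (fun k _ => MeasurableSet.of_discrete)
  have hset : {ω | wd (fun k => X k ω) 0 a = u ∧ wd (fun k => X k ω) a L = v} =
      ⋂ k ∈ Finset.range (a + L), X k ⁻¹'
        {x | (∀ h : k < a, x = u ⟨k, h⟩) ∧ ∀ h : a ≤ k ∧ k - a < L, x = v ⟨k - a, h.2⟩} := by
    ext ω
    simp only [Set.mem_ofPred_eq, Set.mem_iInter, Set.mem_preimage, Finset.mem_range]
    constructor
    · rintro ⟨h2, h3⟩ k hk
      constructor
      · intro h
        rw [← h2]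
        simp [wd]
      · intro h
        rw [← h3]
        simp only [wd]
        congr 1
        omega
    · intro h
      constructor
      · funext t
        have := (h t (by omega)).1 t.2
        simpa [wd] using this
      · funext t
        have := (h (a + t) (by omega)).2 ⟨by omega, by omega⟩
        simp only [wd]
        rw [this]
        congr 1
        ext
        simp
  rw [hset, h1, Finset.prod_range_add]
  rw [ENNReal.ofReal_mul (Finset.prod_nonneg fun _ _ => (μ _).nn _),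
    ENNReal.ofReal_prod_of_nonneg (fun _ _ => (μ _).nn _),
    ENNReal.ofReal_prod_of_nonneg (fun _ _ => (μ _).nn _),
    Finset.prod_range, Finset.prod_range]
  congr 1
  · refine Finset.prod_congr rfl fun t _ => ?_
    rw [← (hX.2 t).2 (u t) (hu t)]
    congr 1
    ext ω
    simp only [Set.mem_preimage, Set.mem_ofPred_eq]
    constructor
    · rintro ⟨h2, -⟩
      exact h2 t.2
    · intro h2
      exact ⟨fun _ => h2, fun h => absurd h.1 (by omega)⟩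
  · refine Finset.prod_congr rfl fun t _ => ?_
    rw [← (hX.2 (a + t)).2 (v t) (hv t)]
    congr 1
    ext ω
    simp only [Set.mem_preimage, Set.mem_ofPred_eq]
    constructor
    · rintro ⟨-, h2⟩
      rw [h2 ⟨by omega, by omega⟩]
      congr 1
      ext
      simp
    · intro h2
      refine ⟨fun h => absurd h (by omega), fun h => ?_⟩
      rw [h2]
      congr 1
      ext
      simp

theorem condZ (μ : ℕ → Law) (X : ℕ → Ω → ℤ) (hX : HasLaws P μ X) (a L : ℕ)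
    (G : (Fin a → ℤ) → (Fin L → ℤ) → Prop) (B : ℝ)
    (hB : ∀ u, prob (wd μ a L) (G u) ≤ B) :
    P {ω | G (wd (fun k => X k ω) 0 a) (wd (fun k => X k ω) a L)} ≤ ENNReal.ofReal B := by
  classical
  have hsub : {ω | G (wd (fun k => X k ω) 0 a) (wd (fun k => X k ω) a L)} ≤ᵐ[P]
      ⋃ u ∈ Fintype.piFinset (fun t : Fin a => (μ t).A),
        ⋃ v ∈ (Fintype.piFinset (fun t : Fin L => (μ (a + t)).A)).filter (G u),
          {ω | wd (fun k => X k ω) 0 a = u ∧ wd (fun k => X k ω) a L = v} := by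
    have hall : ∀ᵐ ω ∂P, ∀ k, X k ω ∈ (μ k).A := ae_all_iff.2 fun k => (hX.2 k).1
    filter_upwards [hall] with ω hω hmem
    change ω ∈ ⋃ u ∈ Fintype.piFinset (fun t : Fin a => (μ t).A),
        ⋃ v ∈ (Fintype.piFinset (fun t : Fin L => (μ (a + t)).A)).filter (G u),
          {ω | wd (fun k => X k ω) 0 a = u ∧ wd (fun k => X k ω) a L = v}
    simp only [Set.mem_iUnion, Finset.mem_filter, Fintype.mem_piFinset, Set.mem_ofPred_eq, exists_prop]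
    refine ⟨wd (fun k => X k ω) 0 a, fun t => ?_, wd (fun k => X k ω) a L, ⟨fun t => ?_, hmem⟩, rfl, rfl⟩
    · simp only [wd, zero_add]
      exact hω t
    · simp only [wd]
      exact hω (a + t)
  calc P {ω | G (wd (fun k => X k ω) 0 a) (wd (fun k => X k ω) a L)}
      ≤ ∑ u ∈ Fintype.piFinset (fun t : Fin a => (μ t).A),
          ∑ v ∈ (Fintype.piFinset (fun t : Fin L => (μ (a + t)).A)).filter (G u),
          P {ω | wd (fun k => X k ω) 0 a = u ∧ wd (fun k => X k ω) a L = v} := by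
        refine (measure_mono_ae hsub).trans ((measure_biUnion_finset_le _ _).trans ?_)
        exact Finset.sum_le_sum fun u _ => measure_biUnion_finset_le _ _
    _ = ∑ u ∈ Fintype.piFinset (fun t : Fin a => (μ t).A),
          ENNReal.ofReal ((∏ t : Fin a, (μ t).p (u t)) * prob (wd μ a L) (G u)) := by
        refine Finset.sum_congr rfl fun u hu => ?_
        rw [Fintype.mem_piFinset] at hu
        unfold prob
        rw [Finset.mul_sum, ENNReal.ofReal_sum_of_nonneg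
          (fun v _ => mul_nonneg (Finset.prod_nonneg fun _ _ => (μ _).nn _)
            (Finset.prod_nonneg fun _ _ => (wd μ a L _).nn _))]
        refine Finset.sum_congr rfl fun v hv => ?_
        rw [Finset.mem_filter, Fintype.mem_piFinset] at hv
        exact cylZ μ X hX a L u v hu hv.1
    _ ≤ ∑ u ∈ Fintype.piFinset (fun t : Fin a => (μ t).A),
          ENNReal.ofReal ((∏ t : Fin a, (μ t).p (u t)) * B) := by
        refine Finset.sum_le_sum fun u _ => ENNReal.ofReal_le_ofReal ?_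
        exact mul_le_mul_of_nonneg_left (hB u) (Finset.prod_nonneg fun _ _ => (μ _).nn _)
    _ = ENNReal.ofReal B := by
        have hne : ∑ u ∈ Fintype.piFinset (fun t : Fin a => (μ t).A), ∏ t : Fin a, (μ t).p (u t) = 1 := by
          rw [← Finset.prod_univ_sum]
          simp [Law.sum]
        have hB0 : 0 ≤ B := by
          have hpos : (Fintype.piFinset (fun t : Fin a => (μ t).A)).Nonempty := by
            rw [Finset.nonempty_iff_ne_empty]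
            intro h0
            rw [h0, Finset.sum_empty] at hne
            exact zero_ne_one hne
          obtain ⟨u, _⟩ := hpos
          refine le_trans ?_ (hB u)
          unfold prob
          exact Finset.sum_nonneg fun w _ => Finset.prod_nonneg fun _ _ => (wd μ a L _).nn _
        rw [← ENNReal.ofReal_sum_of_nonneg
          (fun u _ => mul_nonneg (Finset.prod_nonneg fun _ _ => (μ _).nn _) hB0), ← Finset.sum_mul, hne,
          one_mul]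

theorem twG_split (v : ℕ → List (Fin (m - 1))) (i : ℕ → Fin (m - 1)) (x : ℕ → ℤ) (a c b : ℕ)
    (h1 : a ≤ c) (h2 : c ≤ b) :
    twG (wd v a (b - a)) (wd i a (b - a)) (wd x a (b - a)) =
      twG (wd v a (c - a)) (wd i a (c - a)) (wd x a (c - a)) ++
        twG (wd v c (b - c)) (wd i c (b - c)) (wd x c (b - c)) := by
  unfold twG
  rw [← List.flatten_append]
  congr 1
  apply List.ext_getElem
  · simp only [List.length_ofFn, List.length_append]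
    omega
  · intro k h3 h4
    simp only [List.length_ofFn, List.length_append] at h3 h4
    rw [List.getElem_append]
    simp only [List.getElem_ofFn, wd, List.length_ofFn]
    split_ifs with h
    · rfl
    · have : a + k = c + (k - (c - a)) := by omega
      rw [this]

theorem drawV_append (O : Outer m) (l l' : List (VLetter m)) :
    drawV O (l ++ l') = drawV (drawV O l) l' := by
  unfold drawV
  rw [List.foldl_append]

theorem JV_split (O : Outer m) (v : ℕ → List (Fin (m - 1))) (i : ℕ → Fin (m - 1)) (x : ℕ → ℤ)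
    (a c b : ℕ) (h1 : a ≤ c) (h2 : c ≤ b) :
    JV O v i x a b =
      (diaV (drawV O (twG (wd v a (c - a)) (wd i a (c - a)) (wd x a (c - a))))
        (twG (wd v c (b - c)) (wd i c (b - c)) (wd x c (b - c)))).fPoly := by
  unfold JV diaV
  rw [twG_split v i x a c b h1 h2, drawV_append]

/-- a finite sequence continued by zeros -/
def ez {a : ℕ} (u : Fin a → ℤ) (k : ℕ) : ℤ := if h : k < a then u ⟨k, h⟩ else 0

theorem wd_ez {a : ℕ} (x : ℕ → ℤ) (i L : ℕ) (h : i + L ≤ a) : wd (ez (wd x 0 a)) i L = wd x i L := by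
  funext t
  simp only [wd, ez]
  rw [dif_pos (by omega)]
  simp

/-- the constant in front of the logarithm -/
noncomputable def KZ (A : ℕ) (r : ℝ) : ℝ := ((A + 1 : ℕ) * (9 : ℕ) + 2) / (-Real.log r)

theorem KZ_pos (A : ℕ) (r : ℝ) (hr : 0 < r) (hr1 : r < 1) : 0 < KZ A r := by
  have := Real.log_neg hr hr1
  unfold KZ
  apply div_pos
  · positivity
  · linarith

theorem pwZ (C r : ℝ) (hr : 0 < r) (hr1 : r < 1) (z : ℝ) (L : ℕ) (h : z ≤ L) :
    C * r ^ L ≤ |C| * r ^ z := by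
  refine (mul_le_mul_of_nonneg_right (le_abs_self C) (by positivity)).trans ?_
  refine mul_le_mul_of_nonneg_left ?_ (abs_nonneg C)
  rw [← Real.rpow_natCast]
  exact Real.rpow_le_rpow_of_exponent_ge hr hr1.le h

theorem pows (n A : ℕ) : (n + 1) ^ A ≤ (n + 1) ^ (A + 1) ∧ n + 1 ≤ (n + 1) ^ (A + 1) :=
  ⟨Nat.pow_le_pow_right (by omega) (by omega), by
    calc n + 1 = (n + 1) ^ 1 := (pow_one _).symm
      _ ≤ (n + 1) ^ (A + 1) := Nat.pow_le_pow_right (by omega) (by omega)⟩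

theorem partZ1 (v : ℕ → List (Fin (m - 1))) (i : ℕ → Fin (m - 1)) (μ : ℕ → Law) (X : ℕ → Ω → ℤ)
    (hX : HasLaws P μ X) (C r ε : ℝ) (R : ℕ) (hr : 0 < r) (hr1 : r < 1)
    (hC : ∀ N : ℕ, 2 ≤ N → ∀ (O : Outer m) (g : ℤ[T;T⁻¹]) (k : ℕ) (v : Fin k → List (Fin (m - 1)))
      (i : Fin k → Fin (m - 1)) (μ : Fin k → Law) (u : ℕ), u * R ≤ turnsG v i μ ε →
      prob μ (fun x => (N : ℤ[T;T⁻¹]) ∣ (diaV O (twG v i x)).fPoly - g) ≤ C * r ^ u)
    (A : ℕ) (O : ℕ → Outer m) (g : ℕ → ℤ[T;T⁻¹]) :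
    ∀ᵐ ω ∂P, ∀ᶠ n : ℕ in atTop, ∀ a b u s t N : ℕ, a ≤ b → b ≤ n → u ≤ n →
      KZ A r * Real.log (n + 1) ≤ u →
      u * R ≤ turnsG (wd v a (b - a)) (wd i a (b - a)) (wd μ a (b - a)) ε →
      s < (n + 1) ^ A → t < (n + 1) ^ A → N < (n + 1) ^ A → 2 ≤ N →
      ¬ (N : ℤ[T;T⁻¹]) ∣ JV (O s) v i (fun k => X k ω) a b - g t := by
  classical
  set E : ℕ → (Fin 9 → ℕ) → Set Ω := fun n τ =>
    {ω | (KZ A r * Real.log (n + 1) ≤ τ 2 ∧ τ 2 * R ≤ turnsG (wd v (τ 0) (τ 1 - τ 0))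
        (wd i (τ 0) (τ 1 - τ 0)) (wd μ (τ 0) (τ 1 - τ 0)) ε ∧ 2 ≤ τ 5) ∧
      ((τ 5 : ℕ) : ℤ[T;T⁻¹]) ∣ JV (O (τ 3)) v i (fun k => X k ω) (τ 0) (τ 1) - g (τ 4)} with hE
  have h := bc (P := P) 9 (A + 1) |C| r hr hr1 E ?_
  · filter_upwards [h] with ω hω
    filter_upwards [hω] with n hn a b u s t N hab hb hu h1 h2 hs ht hN hN2
    intro hdvd
    obtain ⟨hA, hA'⟩ := pows n A
    apply hn ![a, b, u, s, t, N, 0, 0, 0]
    · intro k
      fin_cases k <;> simp <;> omega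
    · exact ⟨⟨h1, h2, hN2⟩, hdvd⟩
  · intro n τ
    rw [hE]
    dsimp only
    by_cases h : KZ A r * Real.log (n + 1) ≤ τ 2 ∧ τ 2 * R ≤ turnsG (wd v (τ 0) (τ 1 - τ 0))
        (wd i (τ 0) (τ 1 - τ 0)) (wd μ (τ 0) (τ 1 - τ 0)) ε ∧ 2 ≤ τ 5
    · simp only [h, true_and]
      have h1 := condZ μ X hX (τ 0) (τ 1 - τ 0)
        (fun _ x => ((τ 5 : ℕ) : ℤ[T;T⁻¹]) ∣
          (diaV (O (τ 3)) (twG (wd v (τ 0) (τ 1 - τ 0)) (wd i (τ 0) (τ 1 - τ 0)) x)).fPoly - g (τ 4))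
        (C * r ^ (τ 2)) (fun _ => hC _ h.2.2 _ _ _ _ _ _ _ h.2.1)
      refine h1.trans (ENNReal.ofReal_le_ofReal ?_)
      exact pwZ C r hr hr1 _ _ h.1
    · simp [h]

theorem partZ2 (v : ℕ → List (Fin (m - 1))) (i : ℕ → Fin (m - 1)) (μ : ℕ → Law) (X : ℕ → Ω → ℤ)
    (hX : HasLaws P μ X) (C r ε : ℝ) (R : ℕ) (hr : 0 < r) (hr1 : r < 1)
    (hC : ∀ N : ℕ, 2 ≤ N → ∀ (O : Outer m) (g : ℤ[T;T⁻¹]) (k : ℕ) (v : Fin k → List (Fin (m - 1)))
      (i : Fin k → Fin (m - 1)) (μ : Fin k → Law) (u : ℕ), u * R ≤ turnsG v i μ ε →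
      prob μ (fun x => (N : ℤ[T;T⁻¹]) ∣ (diaV O (twG v i x)).fPoly - g) ≤ C * r ^ u)
    (A : ℕ) (O : ℕ → Outer m) :
    ∀ᵐ ω ∂P, ∀ᶠ n : ℕ in atTop, ∀ a b a' c b' u s t N : ℕ, a ≤ b → b ≤ c → a' ≤ c → c ≤ b' →
      b' ≤ n → u ≤ n → KZ A r * Real.log (n + 1) ≤ u →
      u * R ≤ turnsG (wd v c (b' - c)) (wd i c (b' - c)) (wd μ c (b' - c)) ε →
      s < (n + 1) ^ A → t < (n + 1) ^ A → N < (n + 1) ^ A → 2 ≤ N →
      ¬ (N : ℤ[T;T⁻¹]) ∣ JV (O s) v i (fun k => X k ω) a b - JV (O t) v i (fun k => X k ω) a' b' := by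
  classical
  set E : ℕ → (Fin 9 → ℕ) → Set Ω := fun n τ =>
    {ω | (τ 0 ≤ τ 1 ∧ τ 1 ≤ τ 3 ∧ τ 2 ≤ τ 3 ∧ τ 3 ≤ τ 4 ∧ KZ A r * Real.log (n + 1) ≤ τ 5 ∧
        τ 5 * R ≤ turnsG (wd v (τ 3) (τ 4 - τ 3)) (wd i (τ 3) (τ 4 - τ 3)) (wd μ (τ 3) (τ 4 - τ 3)) ε ∧
        2 ≤ τ 8) ∧
      ((τ 8 : ℕ) : ℤ[T;T⁻¹]) ∣ JV (O (τ 6)) v i (fun k => X k ω) (τ 0) (τ 1) -
        JV (O (τ 7)) v i (fun k => X k ω) (τ 2) (τ 4)} with hE
  have h := bc (P := P) 9 (A + 1) |C| r hr hr1 E ?_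
  · filter_upwards [h] with ω hω
    filter_upwards [hω] with n hn a b a' c b' u s t N hab hbc hac hcb hb hu h1 h2 hs ht hN hN2
    intro hdvd
    obtain ⟨hA, hA'⟩ := pows n A
    apply hn ![a, b, a', c, b', u, s, t, N]
    · intro k
      fin_cases k <;> simp <;> omega
    · exact ⟨⟨hab, hbc, hac, hcb, h1, h2, hN2⟩, hdvd⟩
  · intro n τ
    rw [hE]
    dsimp only
    by_cases h : τ 0 ≤ τ 1 ∧ τ 1 ≤ τ 3 ∧ τ 2 ≤ τ 3 ∧ τ 3 ≤ τ 4 ∧ KZ A r * Real.log (n + 1) ≤ τ 5 ∧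
        τ 5 * R ≤ turnsG (wd v (τ 3) (τ 4 - τ 3)) (wd i (τ 3) (τ 4 - τ 3)) (wd μ (τ 3) (τ 4 - τ 3)) ε ∧
        2 ≤ τ 8
    · simp only [h, true_and]
      obtain ⟨h0, h1, h2, h3, h4, h5, h6⟩ := h
      have h7 := condZ μ X hX (τ 3) (τ 4 - τ 3)
        (fun y x => ((τ 8 : ℕ) : ℤ[T;T⁻¹]) ∣ JV (O (τ 6)) v i (ez y) (τ 0) (τ 1) -
          (diaV (drawV (O (τ 7)) (twG (wd v (τ 2) (τ 3 - τ 2)) (wd i (τ 2) (τ 3 - τ 2))
            (wd (ez y) (τ 2) (τ 3 - τ 2))))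
            (twG (wd v (τ 3) (τ 4 - τ 3)) (wd i (τ 3) (τ 4 - τ 3)) x)).fPoly)
        (C * r ^ (τ 5)) (fun y => by
          have h8 := hC _ h6 (drawV (O (τ 7)) (twG (wd v (τ 2) (τ 3 - τ 2)) (wd i (τ 2) (τ 3 - τ 2))
            (wd (ez y) (τ 2) (τ 3 - τ 2)))) (JV (O (τ 6)) v i (ez y) (τ 0) (τ 1)) (τ 4 - τ 3)
            (wd v (τ 3) (τ 4 - τ 3)) (wd i (τ 3) (τ 4 - τ 3)) (wd μ (τ 3) (τ 4 - τ 3)) (τ 5) h5
          have h9 : (fun x : Fin (τ 4 - τ 3) → ℤ =>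
              ((τ 8 : ℕ) : ℤ[T;T⁻¹]) ∣ JV (O (τ 6)) v i (ez y) (τ 0) (τ 1) -
                (diaV (drawV (O (τ 7)) (twG (wd v (τ 2) (τ 3 - τ 2)) (wd i (τ 2) (τ 3 - τ 2))
                  (wd (ez y) (τ 2) (τ 3 - τ 2))))
                  (twG (wd v (τ 3) (τ 4 - τ 3)) (wd i (τ 3) (τ 4 - τ 3)) x)).fPoly) =
              (fun x => ((τ 8 : ℕ) : ℤ[T;T⁻¹]) ∣
                (diaV (drawV (O (τ 7)) (twG (wd v (τ 2) (τ 3 - τ 2)) (wd i (τ 2) (τ 3 - τ 2))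
                  (wd (ez y) (τ 2) (τ 3 - τ 2))))
                  (twG (wd v (τ 3) (τ 4 - τ 3)) (wd i (τ 3) (τ 4 - τ 3)) x)).fPoly -
                  JV (O (τ 6)) v i (ez y) (τ 0) (τ 1)) := by
            funext x
            rw [dvd_sub_comm]
          rw [h9]
          exact h8)
      have hset : {ω | ((τ 8 : ℕ) : ℤ[T;T⁻¹]) ∣ JV (O (τ 6)) v i (fun k => X k ω) (τ 0) (τ 1) -
          JV (O (τ 7)) v i (fun k => X k ω) (τ 2) (τ 4)} =
          {ω | (fun (y : Fin (τ 3) → ℤ) (x : Fin (τ 4 - τ 3) → ℤ) =>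
            ((τ 8 : ℕ) : ℤ[T;T⁻¹]) ∣ JV (O (τ 6)) v i (ez y) (τ 0) (τ 1) -
              (diaV (drawV (O (τ 7)) (twG (wd v (τ 2) (τ 3 - τ 2)) (wd i (τ 2) (τ 3 - τ 2))
                (wd (ez y) (τ 2) (τ 3 - τ 2))))
                (twG (wd v (τ 3) (τ 4 - τ 3)) (wd i (τ 3) (τ 4 - τ 3)) x)).fPoly)
            (wd (fun k => X k ω) 0 (τ 3)) (wd (fun k => X k ω) (τ 3) (τ 4 - τ 3))} := by
        ext ω
        simp only [Set.mem_ofPred_eq]
        rw [JV_split (O (τ 7)) v i (fun k => X k ω) (τ 2) (τ 3) (τ 4) h2 h3,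
          wd_ez _ (τ 2) (τ 3 - τ 2) (by omega)]
        unfold JV
        rw [wd_ez _ (τ 0) (τ 1 - τ 0) (by omega)]
      rw [hset]
      refine h7.trans (ENNReal.ofReal_le_ofReal ?_)
      exact pwZ C r hr hr1 _ _ h4
    · have : {ω | (τ 0 ≤ τ 1 ∧ τ 1 ≤ τ 3 ∧ τ 2 ≤ τ 3 ∧ τ 3 ≤ τ 4 ∧
          KZ A r * Real.log (n + 1) ≤ τ 5 ∧ τ 5 * R ≤ turnsG (wd v (τ 3) (τ 4 - τ 3))
            (wd i (τ 3) (τ 4 - τ 3)) (wd μ (τ 3) (τ 4 - τ 3)) ε ∧ 2 ≤ τ 8) ∧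
          ((τ 8 : ℕ) : ℤ[T;T⁻¹]) ∣ JV (O (τ 6)) v i (fun k => X k ω) (τ 0) (τ 1) -
            JV (O (τ 7)) v i (fun k => X k ω) (τ 2) (τ 4)} = (∅ : Set Ω) := by
        ext ω
        simp only [Set.mem_ofPred_eq, Set.mem_empty_iff_false, iff_false]
        exact fun h' => h h'.1
      rw [this]
      simp

theorem partZ3 (v : ℕ → List (Fin (m - 1))) (i : ℕ → Fin (m - 1)) (μ : ℕ → Law) (X : ℕ → Ω → ℤ)
    (hX : HasLaws P μ X) (C r ε κ : ℝ) (R : ℕ) (hr : 0 < r) (hr1 : r < 1)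
    (F : Outer m → ℕ → List (VLetter m) → Prop)
    (hC : ∀ (O : Outer m) (k : ℕ) (v : Fin k → List (Fin (m - 1)))
      (i : Fin k → Fin (m - 1)) (μ : Fin k → Law) (u : ℕ), u * R ≤ turnsG v i μ ε →
      (∀ x ∈ Fintype.piFinset (fun j => (μ j).A), (osize O : ℝ) + ∑ j, |(x j : ℝ)| ≤ κ * (u + 1)) →
      prob μ (fun x => F O u (twG v i x)) ≤ C * r ^ u)
    (A : ℕ) (O : ℕ → Outer m) :
    ∀ᵐ ω ∂P, ∀ᶠ n : ℕ in atTop, ∀ a b u s : ℕ, a ≤ b → b ≤ n → u ≤ n →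
      KZ A r * Real.log (n + 1) ≤ u →
      u * R ≤ turnsG (wd v a (b - a)) (wd i a (b - a)) (wd μ a (b - a)) ε →
      s < (n + 1) ^ A →
      (∀ x ∈ Fintype.piFinset (fun j => (wd μ a (b - a) j).A),
        (osize (O s) : ℝ) + ∑ j, |(x j : ℝ)| ≤ κ * (u + 1)) →
      ¬ F (O s) u (twG (wd v a (b - a)) (wd i a (b - a)) (wd (fun k => X k ω) a (b - a))) := by
  classical
  set E : ℕ → (Fin 9 → ℕ) → Set Ω := fun n τ =>
    {ω | (KZ A r * Real.log (n + 1) ≤ τ 2 ∧ τ 2 * R ≤ turnsG (wd v (τ 0) (τ 1 - τ 0))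
        (wd i (τ 0) (τ 1 - τ 0)) (wd μ (τ 0) (τ 1 - τ 0)) ε ∧
        (∀ x ∈ Fintype.piFinset (fun j => (wd μ (τ 0) (τ 1 - τ 0) j).A),
          (osize (O (τ 3)) : ℝ) + ∑ j, |(x j : ℝ)| ≤ κ * ((τ 2 : ℕ) + 1))) ∧
      F (O (τ 3)) (τ 2) (twG (wd v (τ 0) (τ 1 - τ 0)) (wd i (τ 0) (τ 1 - τ 0))
        (wd (fun k => X k ω) (τ 0) (τ 1 - τ 0)))} with hE
  have h := bc (P := P) 9 (A + 1) |C| r hr hr1 E ?_
  · filter_upwards [h] with ω hω
    filter_upwards [hω] with n hn a b u s hab hb hu h1 h2 hs h3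
    intro hF
    obtain ⟨hA, hA'⟩ := pows n A
    apply hn ![a, b, u, s, 0, 0, 0, 0, 0]
    · intro k
      fin_cases k <;> simp <;> omega
    · exact ⟨⟨h1, h2, h3⟩, hF⟩
  · intro n τ
    rw [hE]
    dsimp only
    by_cases h : KZ A r * Real.log (n + 1) ≤ τ 2 ∧ τ 2 * R ≤ turnsG (wd v (τ 0) (τ 1 - τ 0))
        (wd i (τ 0) (τ 1 - τ 0)) (wd μ (τ 0) (τ 1 - τ 0)) ε ∧
        (∀ x ∈ Fintype.piFinset (fun j => (wd μ (τ 0) (τ 1 - τ 0) j).A),
          (osize (O (τ 3)) : ℝ) + ∑ j, |(x j : ℝ)| ≤ κ * ((τ 2 : ℕ) + 1))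
    · have hset : {ω | (KZ A r * Real.log (n + 1) ≤ τ 2 ∧ τ 2 * R ≤ turnsG (wd v (τ 0) (τ 1 - τ 0))
          (wd i (τ 0) (τ 1 - τ 0)) (wd μ (τ 0) (τ 1 - τ 0)) ε ∧
          (∀ x ∈ Fintype.piFinset (fun j => (wd μ (τ 0) (τ 1 - τ 0) j).A),
            (osize (O (τ 3)) : ℝ) + ∑ j, |(x j : ℝ)| ≤ κ * ((τ 2 : ℕ) + 1))) ∧
          F (O (τ 3)) (τ 2) (twG (wd v (τ 0) (τ 1 - τ 0)) (wd i (τ 0) (τ 1 - τ 0))
            (wd (fun k => X k ω) (τ 0) (τ 1 - τ 0)))} ⊆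
          {ω | (fun (_ : Fin (τ 0) → ℤ) (x : Fin (τ 1 - τ 0) → ℤ) => F (O (τ 3)) (τ 2)
            (twG (wd v (τ 0) (τ 1 - τ 0)) (wd i (τ 0) (τ 1 - τ 0)) x))
            (wd (fun k => X k ω) 0 (τ 0)) (wd (fun k => X k ω) (τ 0) (τ 1 - τ 0))} := by
        intro ω hω
        exact hω.2
      have h1 := condZ μ X hX (τ 0) (τ 1 - τ 0)
        (fun _ x => F (O (τ 3)) (τ 2) (twG (wd v (τ 0) (τ 1 - τ 0)) (wd i (τ 0) (τ 1 - τ 0)) x))
        (C * r ^ (τ 2)) (fun _ => hC _ _ _ _ _ _ h.2.1 h.2.2)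
      refine (measure_mono hset).trans (h1.trans (ENNReal.ofReal_le_ofReal ?_))
      exact pwZ C r hr hr1 _ _ h.1
    · have : {ω | (KZ A r * Real.log (n + 1) ≤ τ 2 ∧ τ 2 * R ≤ turnsG (wd v (τ 0) (τ 1 - τ 0))
          (wd i (τ 0) (τ 1 - τ 0)) (wd μ (τ 0) (τ 1 - τ 0)) ε ∧
          (∀ x ∈ Fintype.piFinset (fun j => (wd μ (τ 0) (τ 1 - τ 0) j).A),
            (osize (O (τ 3)) : ℝ) + ∑ j, |(x j : ℝ)| ≤ κ * ((τ 2 : ℕ) + 1))) ∧
          F (O (τ 3)) (τ 2) (twG (wd v (τ 0) (τ 1 - τ 0)) (wd i (τ 0) (τ 1 - τ 0))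
            (wd (fun k => X k ω) (τ 0) (τ 1 - τ 0)))} = (∅ : Set Ω) := by
        ext ω
        simp only [Set.mem_ofPred_eq, Set.mem_empty_iff_false, iff_false]
        exact fun h' => h h'.1
      rw [this]
      simp

end Pool.Agent.Q262.BP
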